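import Pool.Agent.H4.L.R_pool_sql_team_seeded_3997aac3.Q171.AS.Asada

/-!
Automorphisms preserving the flag of free factors of rank two, three, and so on.
-/

namespace Pool.Agent.Q171.AS

open FreeGroup (of lift)
open Pool.Agent.Q24.PG (Wr)
open Pool.Agent.Q24.CG

variable {n : ℕ}

/-- the subgroup generated by the first two basis elements -/
def base (n : ℕ) : Subgroup (FreeGroup (Fin n)) :=
  Subgroup.closure {x | ∃ j : Fin n, (j : ℕ) < 2 ∧ x = of j}

theorem of_mem_base {j : Fin n} (h : (j : ℕ) < 2) : of j ∈ base n :=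
  Subgroup.subset_closure ⟨j, h, rfl⟩

theorem base_le_low {i : Fin n} (hi : 2 ≤ (i : ℕ)) : base n ≤ low i := by
  unfold base
  rw [Subgroup.closure_le]
  rintro _ ⟨j, hj, rfl⟩
  exact of_mem_low (Fin.lt_def.2 (by omega))

theorem maps_low {i : Fin n} (φ : FreeGroup (Fin n) →* FreeGroup (Fin n))
    (h0 : ∀ w ∈ base n, φ w ∈ base n) (hi : 2 ≤ (i : ℕ))
    (h : ∀ j, j < i → 2 ≤ (j : ℕ) → Shape j (φ (of j))) {w : FreeGroup (Fin n)} (hw : w ∈ low i) :
    φ w ∈ low i := by
  apply map_low_of φ _ hw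
  intro j hj
  by_cases hj2 : (j : ℕ) < 2
  · exact base_le_low hi (h0 _ (of_mem_base hj2))
  · exact (h j hj (by omega)).mem hj

/-- The group of the automorphisms `α` which map the subgroup generated by `x 0`, `x 1` onto itself
and such that for each `i ≥ 2` the element `α (x i)` is of the form `u * (x i) ^ (± 1) * v`, where
`u` and `v` lie in the subgroup generated by the `x j` with `j < i`. -/
def flag (n : ℕ) : Subgroup (MulAut (FreeGroup (Fin n))) where
  carrier := {α | (∀ w, α w ∈ base n ↔ w ∈ base n) ∧ ∀ i : Fin n, 2 ≤ (i : ℕ) → Shape i (α (of i))}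
  one_mem' := ⟨fun w => by simp, fun i _ => ⟨1, one_mem _, 1, one_mem _, Or.inl (by simp)⟩⟩
  mul_mem' := by
    rintro α β ⟨hα0, hα⟩ ⟨hβ0, hβ⟩
    refine ⟨fun w => by rw [MulAut.mul_apply, hα0, hβ0], fun i hi => ?_⟩
    have hlow : ∀ w ∈ low i, α w ∈ low i := fun w hw =>
      maps_low (α : FreeGroup (Fin n) →* FreeGroup (Fin n)) (fun w hw => (hα0 w).2 hw) hi
        (fun j _ hj2 => hα j hj2) hw
    obtain ⟨u, hu, v, hv, h1 | h1⟩ := hβ i hi
    · obtain ⟨u', hu', v', hv', h2 | h2⟩ := hα i hi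
      · refine ⟨α u * u', mul_mem (hlow _ hu) hu', v' * α v, mul_mem hv' (hlow _ hv), Or.inl ?_⟩
        rw [MulAut.mul_apply, h1, map_mul, map_mul, h2]
        group
      · refine ⟨α u * u', mul_mem (hlow _ hu) hu', v' * α v, mul_mem hv' (hlow _ hv), Or.inr ?_⟩
        rw [MulAut.mul_apply, h1, map_mul, map_mul, h2]
        group
    · obtain ⟨u', hu', v', hv', h2 | h2⟩ := hα i hi
      · refine ⟨α u * v'⁻¹, mul_mem (hlow _ hu) (inv_mem hv'), u'⁻¹ * α v,
          mul_mem (inv_mem hu') (hlow _ hv), Or.inr ?_⟩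
        rw [MulAut.mul_apply, h1, map_mul, map_mul, map_inv, h2]
        group
      · refine ⟨α u * v'⁻¹, mul_mem (hlow _ hu) (inv_mem hv'), u'⁻¹ * α v,
          mul_mem (inv_mem hu') (hlow _ hv), Or.inl ?_⟩
        rw [MulAut.mul_apply, h1, map_mul, map_mul, map_inv, h2]
        group
  inv_mem' := by
    rintro α ⟨hα0, hα⟩
    have h0 : ∀ w, α⁻¹ w ∈ base n ↔ w ∈ base n := fun w => by
      rw [← hα0, MulAut.apply_inv_self]
    refine ⟨h0, ?_⟩
    have key : ∀ k : ℕ, ∀ i : Fin n, (i : ℕ) = k → 2 ≤ (i : ℕ) → Shape i (α⁻¹ (of i)) := by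
      intro k
      induction k using Nat.strong_induction_on with
      | _ k ih =>
        intro i hik hi
        have hlow : ∀ w ∈ low i, α⁻¹ w ∈ low i := fun w hw =>
          maps_low ((α⁻¹ : MulAut (FreeGroup (Fin n))) : FreeGroup (Fin n) →* FreeGroup (Fin n))
            (fun w hw => (h0 w).2 hw) hi
            (fun j hj hj2 => ih j (by rw [← hik]; exact hj) j rfl hj2) hw
        obtain ⟨u, hu, v, hv, h1 | h1⟩ := hα i hi
        · refine ⟨(α⁻¹ u)⁻¹, inv_mem (hlow _ hu), (α⁻¹ v)⁻¹, inv_mem (hlow _ hv), Or.inl ?_⟩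
          have h2 := congrArg (α⁻¹ : MulAut (FreeGroup (Fin n))) h1
          rw [MulAut.inv_apply_self, map_mul, map_mul] at h2
          generalize α⁻¹ (of i) = y at h2 ⊢
          rw [h2]
          group
        · refine ⟨α⁻¹ v, hlow _ hv, α⁻¹ u, hlow _ hu, Or.inr ?_⟩
          have h2 := congrArg (α⁻¹ : MulAut (FreeGroup (Fin n))) h1
          rw [MulAut.inv_apply_self, map_mul, map_mul, map_inv] at h2
          generalize α⁻¹ (of i) = y at h2 ⊢
          rw [h2]
          group
    exact fun i hi => key i i rfl hi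

/-- the inclusion of the free group of rank two -/
def emb (hn : 2 ≤ n) : FF →* FreeGroup (Fin n) :=
  lift ![of ⟨0, by omega⟩, of ⟨1, by omega⟩]

/-- the retraction to the free group of rank two -/
def ret (n : ℕ) : FreeGroup (Fin n) →* FF :=
  lift (fun j => if (j : ℕ) = 0 then X else if (j : ℕ) = 1 then Y else 1)

theorem ret_emb (hn : 2 ≤ n) (w : FF) : ret n (emb hn w) = w := by
  have : (ret n).comp (emb hn) = MonoidHom.id _ := by
    apply ext2 <;> simp [ret, emb]
  exact DFunLike.congr_fun this w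

theorem emb_mem (hn : 2 ≤ n) (w : FF) : emb hn w ∈ base n := by
  have h : (⊤ : Subgroup FF) ≤ (base n).comap (emb hn) := by
    rw [← closure_LL, Subgroup.closure_le]
    rintro _ (rfl | rfl)
    · change emb hn (of 0) ∈ base n
      simp only [emb, FreeGroup.lift_apply_of, Matrix.cons_val_zero]
      exact of_mem_base (by simp)
    · change emb hn (of 1) ∈ base n
      simp only [emb, FreeGroup.lift_apply_of, Matrix.cons_val_one, Matrix.cons_val_fin_one]
      exact of_mem_base (by simp)
  exact h (Subgroup.mem_top w)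

theorem emb_ret (hn : 2 ≤ n) {w : FreeGroup (Fin n)} (hw : w ∈ base n) : emb hn (ret n w) = w := by
  have : base n ≤ ((emb hn).comp (ret n)).eqLocus (MonoidHom.id _) := by
    unfold base
    rw [Subgroup.closure_le]
    rintro _ ⟨j, hj, rfl⟩
    change emb hn (ret n (of j)) = of j
    have : (j : ℕ) = 0 ∨ (j : ℕ) = 1 := by omega
    rcases this with h | h
    · have e : j = ⟨0, by omega⟩ := Fin.ext h
      rw [e]
      simp [ret, emb]
    · have e : j = ⟨1, by omega⟩ := Fin.ext h
      rw [e]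
      simp [ret, emb]
  exact this hw

/-- extension of an endomorphism -/
def exH (hn : 2 ≤ n) (φ : FF →* FF) : FreeGroup (Fin n) →* FreeGroup (Fin n) :=
  lift (fun j => if (j : ℕ) < 2 then emb hn (φ (ret n (of j))) else of j)

theorem exH_of (hn : 2 ≤ n) (φ : FF →* FF) {j : Fin n} (h : 2 ≤ (j : ℕ)) :
    exH hn φ (of j) = of j := by
  rw [exH, FreeGroup.lift_apply_of, if_neg (by omega)]

theorem exH_emb (hn : 2 ≤ n) (φ : FF →* FF) (w : FF) : exH hn φ (emb hn w) = emb hn (φ w) := by
  have : (exH hn φ).comp (emb hn) = (emb hn).comp φ := by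
    apply ext2
    · change exH hn φ (emb hn X) = emb hn (φ X)
      have h : emb hn X = of ⟨0, by omega⟩ := by simp [emb]
      have h2 : ret n (of ⟨0, by omega⟩) = X := by simp [ret]
      rw [h, exH, FreeGroup.lift_apply_of, if_pos (by simp), h2]
    · change exH hn φ (emb hn Y) = emb hn (φ Y)
      have h : emb hn Y = of ⟨1, by omega⟩ := by simp [emb]
      have h2 : ret n (of ⟨1, by omega⟩) = Y := by simp [ret]
      rw [h, exH, FreeGroup.lift_apply_of, if_pos (by simp), h2]
  exact DFunLike.congr_fun this w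

theorem exH_comp (hn : 2 ≤ n) (φ ψ : FF →* FF) (x : FreeGroup (Fin n)) :
    exH hn φ (exH hn ψ x) = exH hn (φ.comp ψ) x := by
  have : (exH hn φ).comp (exH hn ψ) = exH hn (φ.comp ψ) := by
    ext j
    change exH hn φ (exH hn ψ (of j)) = exH hn (φ.comp ψ) (of j)
    by_cases h : (j : ℕ) < 2
    · have e : of j = emb hn (ret n (of j)) := (emb_ret hn (of_mem_base h)).symm
      rw [e, exH_emb, exH_emb, exH_emb]
      rfl
    · rw [exH_of hn _ (by omega), exH_of hn _ (by omega), exH_of hn _ (by omega)]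
  exact DFunLike.congr_fun this x

theorem exH_id (hn : 2 ≤ n) (x : FreeGroup (Fin n)) : exH hn (MonoidHom.id FF) x = x := by
  have : exH hn (MonoidHom.id FF) = MonoidHom.id _ := by
    ext j
    change exH hn (MonoidHom.id FF) (of j) = of j
    by_cases h : (j : ℕ) < 2
    · have e : of j = emb hn (ret n (of j)) := (emb_ret hn (of_mem_base h)).symm
      rw [e, exH_emb]
      rfl
    · rw [exH_of hn _ (by omega)]
  exact DFunLike.congr_fun this x

/-- extension of an automorphism -/
def exA (hn : 2 ≤ n) (β : MulAut FF) : MulAut (FreeGroup (Fin n)) :=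
  MonoidHom.toMulEquiv (exH hn β.toMonoidHom) (exH hn (β⁻¹ : MulAut FF).toMonoidHom)
    (by
      ext j
      change exH hn _ (exH hn _ (of j)) = of j
      rw [exH_comp]
      have : ((β⁻¹ : MulAut FF).toMonoidHom.comp β.toMonoidHom) = MonoidHom.id FF := by
        ext i
        change β⁻¹ (β (of i)) = of i
        rw [MulAut.inv_apply_self]
      rw [this, exH_id])
    (by
      ext j
      change exH hn _ (exH hn _ (of j)) = of j
      rw [exH_comp]
      have : (β.toMonoidHom.comp (β⁻¹ : MulAut FF).toMonoidHom) = MonoidHom.id FF := by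
        ext i
        change β (β⁻¹ (of i)) = of i
        rw [MulAut.apply_inv_self]
      rw [this, exH_id])

theorem exA_apply (hn : 2 ≤ n) (β : MulAut FF) (x : FreeGroup (Fin n)) :
    exA hn β x = exH hn β.toMonoidHom x := rfl

theorem exA_inv_apply (hn : 2 ≤ n) (β : MulAut FF) (x : FreeGroup (Fin n)) :
    (exA hn β)⁻¹ x = exH hn (β⁻¹ : MulAut FF).toMonoidHom x := rfl

theorem exA_base (hn : 2 ≤ n) (β : MulAut FF) {w : FreeGroup (Fin n)} (hw : w ∈ base n) :
    exA hn β w ∈ base n := by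
  rw [← emb_ret hn hw, exA_apply, exH_emb]
  exact emb_mem hn _

theorem exA_mem (hn : 2 ≤ n) (β : MulAut FF) : exA hn β ∈ flag n := by
  refine ⟨fun w => ⟨fun h => ?_, fun h => exA_base hn β h⟩, fun i hi => ?_⟩
  · have h1 : (exA hn β)⁻¹ (exA hn β w) ∈ base n := by
      rw [← emb_ret hn h, exA_inv_apply, exH_emb]
      exact emb_mem hn _
    rwa [MulAut.inv_apply_self] at h1
  · refine ⟨1, one_mem _, 1, one_mem _, Or.inl ?_⟩
    rw [exA_apply, exH_of hn _ hi]
    simp

/-- the inclusion of the automorphism group of the free group of rank two -/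
def exT (hn : 2 ≤ n) : MulAut FF →* flag n where
  toFun β := ⟨exA hn β, exA_mem hn β⟩
  map_one' := by
    apply Subtype.ext
    apply aut_ext
    intro j
    change exH hn _ (of j) = of j
    exact exH_id hn _
  map_mul' β γ := by
    apply Subtype.ext
    apply aut_ext
    intro j
    change exH hn _ (of j) = exH hn _ (exH hn _ (of j))
    rw [exH_comp]
    rfl

theorem res_exists (hn : 2 ≤ n) {α : MulAut (FreeGroup (Fin n))} (hα : α ∈ flag n) :
    ∃ β : MulAut FF, ∀ w, emb hn (β w) = α (emb hn w) := by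
  have h1 : ∀ w, emb hn (ret n (α (emb hn w))) = α (emb hn w) := fun w =>
    emb_ret hn ((hα.1 _).2 (emb_mem hn w))
  have h2 : ∀ w, emb hn (ret n (α⁻¹ (emb hn w))) = α⁻¹ (emb hn w) := fun w =>
    emb_ret hn (((inv_mem hα).1 _).2 (emb_mem hn w))
  refine ⟨MonoidHom.toMulEquiv ((ret n).comp (α.toMonoidHom.comp (emb hn)))
    ((ret n).comp ((α⁻¹ : MulAut (FreeGroup (Fin n))).toMonoidHom.comp (emb hn))) ?_ ?_, fun w => h1 w⟩
  · ext i
    change ret n (α⁻¹ (emb hn (ret n (α (emb hn (of i)))))) = of i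
    rw [h1, MulAut.inv_apply_self, ret_emb]
  · ext i
    change ret n (α (emb hn (ret n (α⁻¹ (emb hn (of i)))))) = of i
    rw [h2, MulAut.apply_inv_self, ret_emb]

theorem mk_mem_flag {i : Fin n} (hi : 2 ≤ (i : ℕ)) (u v : low i) : mk i u v ∈ flag n := by
  have h0 : ∀ w ∈ base n, mk i u v w = w := fun w hw => mk_low u v (base_le_low hi hw)
  refine ⟨fun w => ⟨fun h => ?_, fun h => by rw [h0 w h]; exact h⟩, fun j hj => ?_⟩
  · have h1 := h0 _ h
    have h2 : mk i u v w = w := (mk i u v).injective h1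
    rwa [h2] at h
  · by_cases h : j = i
    · subst h
      exact ⟨u, u.2, v, v.2, Or.inl (mk_same _ _ _)⟩
    · exact ⟨1, one_mem _, 1, one_mem _, Or.inl (by rw [mk_ne h]; simp)⟩

/-- `u ↦ (x i ↦ u⁻¹ * x i)` -/
def leftF (i : Fin n) (hi : 2 ≤ (i : ℕ)) : low i →* flag n where
  toFun u := ⟨(left i u : MulAut (FreeGroup (Fin n))), mk_mem_flag hi _ _⟩
  map_one' := by
    apply Subtype.ext
    change ((left i 1 : tri n) : MulAut (FreeGroup (Fin n))) = 1
    rw [map_one]; rfl
  map_mul' u v := by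
    apply Subtype.ext
    change ((left i (u * v) : tri n) : MulAut (FreeGroup (Fin n))) = _
    rw [map_mul]; rfl

/-- `v ↦ (x i ↦ x i * v)` -/
def rightF (i : Fin n) (hi : 2 ≤ (i : ℕ)) : low i →* flag n where
  toFun u := ⟨(right i u : MulAut (FreeGroup (Fin n))), mk_mem_flag hi _ _⟩
  map_one' := by
    apply Subtype.ext
    change ((right i 1 : tri n) : MulAut (FreeGroup (Fin n))) = 1
    rw [map_one]; rfl
  map_mul' u v := by
    apply Subtype.ext
    change ((right i (u * v) : tri n) : MulAut (FreeGroup (Fin n))) = _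
    rw [map_mul]; rfl

/-- The version for `Aut`. -/
theorem flag_aut (hn : 2 ≤ n) (M : Subgroup (flag n)) [M.FiniteIndex] :
    ∃ K : Subgroup (FreeGroup (Fin n)), K.Characteristic ∧ K.FiniteIndex ∧
      ∀ α : flag n, (∀ w, (α : MulAut (FreeGroup (Fin n))) w * w⁻¹ ∈ K) → α ∈ M := by
  classical
  have hA : (M.comap (exT hn)).FiniteIndex := fi_comap _ _
  obtain ⟨QA, iQA, iFA, hQA⟩ := asadaQ (M.comap (exT hn))
  have hst : ∀ i : Fin n, ∃ (Q : Type) (_ : Group Q) (_ : Finite Q), ∀ hi : 2 ≤ (i : ℕ), ∀ w,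
      Shape i w → (∀ f : FreeGroup (Fin n) →* Q, f w = f (of i)) →
      ∃ u ∈ M.comap (leftF i hi) ⊓ M.comap (rightF i hi),
        ∃ v ∈ M.comap (leftF i hi) ⊓ M.comap (rightF i hi), w = u * of i * v := by
    intro i
    by_cases hi : 2 ≤ (i : ℕ)
    · have hf1 : (M.comap (leftF i hi)).FiniteIndex := fi_comap _ _
      have hf2 : (M.comap (rightF i hi)).FiniteIndex := fi_comap _ _
      obtain ⟨Q, iQ, iF, h⟩ := step i (M.comap (leftF i hi) ⊓ M.comap (rightF i hi))
      exact ⟨Q, iQ, iF, fun _ w hw hf => h w hw hf⟩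
    · exact ⟨PUnit, inferInstance, inferInstance, fun h => absurd h hi⟩
  choose Q iQ iF hQ using hst
  refine ⟨KK (FreeGroup (Fin n)) QA ⊓ ⨅ i, KK (FreeGroup (Fin n)) (Q i), ?_, ?_, ?_⟩
  · refine ⟨fun ϕ => ?_⟩
    rw [Subgroup.comap_inf, Subgroup.comap_iInf, KK_char.fixed ϕ]
    congr 1
    congr 1
    funext i
    exact KK_char.fixed ϕ
  · have h1 : (KK (FreeGroup (Fin n)) QA).FiniteIndex := KK_fin
    have h2 : (⨅ i, KK (FreeGroup (Fin n)) (Q i)).FiniteIndex :=
      Subgroup.finiteIndex_iInf (fun i => KK_fin)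
    infer_instance
  · intro α hα
    -- the restriction to the free factor of rank two
    obtain ⟨β, hβ⟩ := res_exists hn α.2
    have hβM : β ∈ M.comap (exT hn) := by
      apply hQA
      intro f w
      have h1 := mem_KK.1 (hα (emb hn w)).1 (f.comp (ret n))
      rw [MonoidHom.comp_apply, map_mul, map_mul, map_inv, map_inv, mul_inv_eq_one, ← hβ, ret_emb,
        ret_emb] at h1
      exact h1
    have h1 : ∀ i : Fin n, ∃ u v : low i, mk i u v ∈ M.map (flag n).subtype ∧
        (α : MulAut (FreeGroup (Fin n))) ((exA hn β)⁻¹ (of i)) = u * of i * v := by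
      intro i
      by_cases hi : 2 ≤ (i : ℕ)
      · have h2 : ∃ u ∈ M.comap (leftF i hi) ⊓ M.comap (rightF i hi),
            ∃ v ∈ M.comap (leftF i hi) ⊓ M.comap (rightF i hi),
            (α : MulAut (FreeGroup (Fin n))) (of i) = u * of i * v := by
          apply hQ i hi _ (α.2.2 i hi)
          intro f
          have h2 : (α : MulAut (FreeGroup (Fin n))) (of i) * (of i)⁻¹ ∈
            ⨅ i, KK (FreeGroup (Fin n)) (Q i) := (hα (of i)).2
          rw [Subgroup.mem_iInf] at h2
          have h3 := mem_KK.1 (h2 i) f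
          rw [map_mul, map_inv, mul_inv_eq_one] at h3
          exact h3
        obtain ⟨u, hu, v, hv, huv⟩ := h2
        refine ⟨u, v, ?_, ?_⟩
        · refine ⟨leftF i hi u⁻¹ * rightF i hi v, ?_, ?_⟩
          · exact mul_mem (by rw [map_inv]; exact inv_mem hu.1) hv.2
          · rw [mk_eq]; rfl
        · rw [exA_inv_apply, exH_of hn _ hi, huv]
      · refine ⟨1, 1, ?_, ?_⟩
        · have : mk i (1 : low i) 1 = 1 := by
            apply aut_ext
            intro j
            by_cases h : j = i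
            · subst h
              rw [mk_same]; simp
            · rw [mk_ne h]; simp
          rw [this]
          exact one_mem _
        · have e : of i = emb hn (ret n (of i)) := (emb_ret hn (of_mem_base (by omega))).symm
          rw [e, exA_inv_apply, exH_emb, ← hβ]
          have : β ((β⁻¹ : MulAut FF).toMonoidHom (ret n (of i))) = ret n (of i) := by
            change β (β⁻¹ _) = _
            rw [MulAut.apply_inv_self]
          rw [this, ← e]
          simp
    choose u v hM huv using h1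
    have h2 : (α : MulAut (FreeGroup (Fin n))) * (exA hn β)⁻¹ ∈ M.map (flag n).subtype :=
      mem_of_factors _ u v hM huv
    have h3 : exA hn β ∈ M.map (flag n).subtype := ⟨exT hn β, hβM, rfl⟩
    have h4 := mul_mem h2 h3
    rw [inv_mul_cancel_right] at h4
    obtain ⟨γ, hγ, hγα⟩ := h4
    have : γ = α := Subtype.ext hγα
    rw [← this]
    exact hγ

end Pool.Agent.Q171.AS
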