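import Pool.Agent.H4.L.R_pool_sql_team_seeded_3997aac3.Q171.AS.Gen

/-!
The subgroup generated by the inner automorphisms, `s`, `t` and `b` is normal of index at most twelve.
-/

namespace Pool.Agent.Q171.AS

open FreeGroup (of lift)

theorem conj_conj {G : Type} [Group G] (g : MulAut G) (r : G) :
    g * MulAut.conj r * g⁻¹ = MulAut.conj (g r) := by
  ext x
  simp

theorem mul_conj {G : Type} [Group G] (g : MulAut G) (r : G) :
    g * MulAut.conj r = MulAut.conj (g r) * g := by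
  rw [← conj_conj]
  group

/-- the generators -/
def gen1 : Set (MulAut FF) := {α | (∃ g, α = MulAut.conj g) ∨ α = sA ∨ α = tA ∨ α = bA}

/-- generated by the inner automorphisms, `s`, `t`, `b` -/
def N1 : Subgroup (MulAut FF) := Subgroup.closure gen1

theorem conj_N1 (g : FF) : MulAut.conj g ∈ N1 := Subgroup.subset_closure (Or.inl ⟨g, rfl⟩)
theorem s_N1 : sA ∈ N1 := Subgroup.subset_closure (Or.inr (Or.inl rfl))
theorem t_N1 : tA ∈ N1 := Subgroup.subset_closure (Or.inr (Or.inr (Or.inl rfl)))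
theorem b_N1 : bA ∈ N1 := Subgroup.subset_closure (Or.inr (Or.inr (Or.inr rfl)))

theorem N1_le {P : Subgroup (MulAut FF)} (hc : ∀ g, MulAut.conj g ∈ P) (hs : sA ∈ P)
    (ht : tA ∈ P) (hb : bA ∈ P) : N1 ≤ P := by
  unfold N1
  rw [Subgroup.closure_le]
  rintro _ (⟨g, rfl⟩ | rfl | rfl | rfl)
  · exact hc g
  · exact hs
  · exact ht
  · exact hb

theorem nrm {g : MulAut FF} (hs : g * sA * g⁻¹ ∈ N1) (ht : g * tA * g⁻¹ ∈ N1)
    (hb : g * bA * g⁻¹ ∈ N1) : ∀ n ∈ N1, g * n * g⁻¹ ∈ N1 := by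
  have : N1 ≤ N1.comap (MulAut.conj g).toMonoidHom := by
    apply N1_le
    · intro r
      change g * MulAut.conj r * g⁻¹ ∈ N1
      rw [conj_conj]
      exact conj_N1 _
    · exact hs
    · exact ht
    · exact hb
  exact fun n hn => this hn

theorem nσ : ∀ n ∈ N1, σA * n * σA⁻¹ ∈ N1 := by
  apply nrm
  · rw [σinv, σs]; exact mul_mem (conj_N1 _) (inv_mem t_N1)
  · rw [σinv, σt]; exact mul_mem (conj_N1 _) (inv_mem s_N1)
  · rw [σinv, σb]; exact b_N1

theorem nε : ∀ n ∈ N1, εA * n * εA⁻¹ ∈ N1 := by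
  apply nrm
  · rw [εinv, εs]; exact inv_mem s_N1
  · rw [εinv, εt]; exact mul_mem (conj_N1 _) (inv_mem t_N1)
  · rw [εinv, εb]; exact b_N1

theorem nμ : ∀ n ∈ N1, μA * n * μA⁻¹ ∈ N1 := by
  apply nrm
  · rw [μs]; exact mul_mem (conj_N1 _) (mul_mem (mul_mem (inv_mem t_N1) (inv_mem s_N1)) b_N1)
  · rw [μt]; exact t_N1
  · rw [μb]; exact mul_mem (conj_N1 _) b_N1

theorem μinv : μA⁻¹ = μA * tA := by
  have := μμt
  rw [mul_assoc] at this
  exact inv_eq_of_mul_eq_one_right this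

/-- the normalizer -/
def NN : Subgroup (MulAut FF) where
  carrier := {g | ∀ n, g * n * g⁻¹ ∈ N1 ↔ n ∈ N1}
  one_mem' := fun n => by simp
  mul_mem' := by
    intro a b ha hb n
    have : a * b * n * (a * b)⁻¹ = a * (b * n * b⁻¹) * a⁻¹ := by group
    rw [this, ha, hb]
  inv_mem' := by
    intro a ha n
    rw [← ha]
    have : a * (a⁻¹ * n * a⁻¹⁻¹) * a⁻¹ = n := by group
    rw [this]

theorem NN_top : NN = ⊤ := by
  apply Pool.Agent.H528.Nielsen.nielsen NN (σ := σA) (ε := εA) (μ := μA)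
  · intro n
    refine ⟨fun h => ?_, nσ n⟩
    have := nσ _ h
    have e : σA * (σA * n * σA⁻¹) * σA⁻¹ = n := by
      rw [σinv]
      have : σA * (σA * n * σA) * σA = (σA * σA) * n * (σA * σA) := by group
      rw [this, σσ, one_mul, mul_one]
    rwa [e] at this
  · intro n
    refine ⟨fun h => ?_, nε n⟩
    have := nε _ h
    have e : εA * (εA * n * εA⁻¹) * εA⁻¹ = n := by
      rw [εinv]
      have : εA * (εA * n * εA) * εA = (εA * εA) * n * (εA * εA) := by group
      rw [this, εε, one_mul, mul_one]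
    rwa [e] at this
  · intro n
    refine ⟨fun h => ?_, nμ n⟩
    have h1 := nμ _ (mul_mem (mul_mem t_N1 h) (inv_mem t_N1))
    have e : μA * (tA * (μA * n * μA⁻¹) * tA⁻¹) * μA⁻¹ = n := by
      have h2 : μA * tA * μA = 1 := by
        rw [← μinv]; group
      have : μA * (tA * (μA * n * μA⁻¹) * tA⁻¹) * μA⁻¹ = (μA * tA * μA) * n * (μA * tA * μA)⁻¹ := by
        group
      rw [this, h2]
      group
    rwa [e] at h1
  · intro g n
    refine ⟨fun h => ?_, fun h => mul_mem (mul_mem (conj_N1 g) h) (inv_mem (conj_N1 g))⟩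
    have := mul_mem (mul_mem (inv_mem (conj_N1 g)) h) (conj_N1 g)
    have e : (MulAut.conj g)⁻¹ * (MulAut.conj g * n * (MulAut.conj g)⁻¹) * MulAut.conj g = n := by
      group
    rwa [e] at this
  · simp
  · simp
  · simp
  · simp
  · simp
  · simp

instance N1_normal : N1.Normal := by
  refine ⟨fun n hn g => ?_⟩
  have : g ∈ NN := by rw [NN_top]; trivial
  exact (this n).2 hn

/-- the quotient map -/
def πQ : MulAut FF →* (MulAut FF ⧸ N1) := QuotientGroup.mk' N1

theorem πQ_one {α : MulAut FF} (h : α ∈ N1) : πQ α = 1 := (QuotientGroup.eq_one_iff _).2 h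

/-- the twelve elements -/
def T12 : Set (MulAut FF ⧸ N1) :=
  {q | ∃ w, (w = 1 ∨ w = πQ σA ∨ w = πQ μA ∨ w = πQ σA * πQ μA ∨ w = πQ μA * πQ σA ∨
    w = πQ μA * πQ σA * πQ μA) ∧ (q = w ∨ q = w * πQ εA)}

section

variable {Q : Type} [Group Q] {S M E : Q} (hS : S * S = 1) (hM : M * M = 1) (hE : E * E = 1)
  (hSE : S * E = E * S) (hME : M * E = E * M) (h3 : S * M * (S * M) * (S * M) * E = 1)

include hE hSE hME in
theorem stepE (q w : Q) (hw : w = 1 ∨ w = S ∨ w = M ∨ w = S * M ∨ w = M * S ∨ w = M * S * M)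
    (hq : q = w ∨ q = w * E) : ∃ w', (w' = 1 ∨ w' = S ∨ w' = M ∨ w' = S * M ∨ w' = M * S ∨
      w' = M * S * M) ∧ (E * q = w' ∨ E * q = w' * E) := by
  have hc : E * w = w * E := by
    rcases hw with rfl | rfl | rfl | rfl | rfl | rfl
    · simp
    · exact hSE.symm
    · exact hME.symm
    · rw [← mul_assoc, ← hSE, mul_assoc, ← hME, mul_assoc]
    · rw [← mul_assoc, ← hME, mul_assoc, ← hSE, mul_assoc]
    · rw [mul_assoc, ← mul_assoc, ← hME, mul_assoc M E, ← mul_assoc E, ← hSE, mul_assoc S, ← hME]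
      simp [mul_assoc]
  refine ⟨w, hw, ?_⟩
  rcases hq with rfl | rfl
  · exact Or.inr hc
  · left
    rw [← mul_assoc, hc, mul_assoc, hE, mul_one]

include hM in
theorem stepM (q w : Q) (hw : w = 1 ∨ w = S ∨ w = M ∨ w = S * M ∨ w = M * S ∨ w = M * S * M)
    (hq : q = w ∨ q = w * E) : ∃ w', (w' = 1 ∨ w' = S ∨ w' = M ∨ w' = S * M ∨ w' = M * S ∨
      w' = M * S * M) ∧ (M * q = w' ∨ M * q = w' * E) := by
  have key : ∃ w', (w' = 1 ∨ w' = S ∨ w' = M ∨ w' = S * M ∨ w' = M * S ∨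
      w' = M * S * M) ∧ M * w = w' := by
    rcases hw with h | h | h | h | h | h
    · exact ⟨M, by simp, by simp [h]⟩
    · exact ⟨M * S, by simp, by rw [h]⟩
    · exact ⟨1, by simp, by rw [h, hM]⟩
    · exact ⟨M * S * M, by simp, by rw [h]; group⟩
    · exact ⟨S, by simp, by rw [h, ← mul_assoc, hM, one_mul]⟩
    · exact ⟨S * M, by simp, by rw [h, mul_assoc, ← mul_assoc, hM, one_mul]⟩
  obtain ⟨w', hw', h⟩ := key
  refine ⟨w', hw', ?_⟩
  rcases hq with rfl | rfl
  · exact Or.inl h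
  · right
    rw [← mul_assoc, h]

include hS hM hE hSE hME h3 in
theorem stepS (q w : Q) (hw : w = 1 ∨ w = S ∨ w = M ∨ w = S * M ∨ w = M * S ∨ w = M * S * M)
    (hq : q = w ∨ q = w * E) : ∃ w', (w' = 1 ∨ w' = S ∨ w' = M ∨ w' = S * M ∨ w' = M * S ∨
      w' = M * S * M) ∧ (S * q = w' ∨ S * q = w' * E) := by
  have hEi : E⁻¹ = E := inv_eq_of_mul_eq_one_left hE
  have hMi : M⁻¹ = M := inv_eq_of_mul_eq_one_left hM
  have hSi : S⁻¹ = S := inv_eq_of_mul_eq_one_left hS
  have h4 : S * M * (S * M) * (S * M) = E := by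
    rw [← hEi]
    exact eq_inv_of_mul_eq_one_left h3
  have h5 : S * (M * S) = M * S * M * E := by
    have : S * (M * S) = (S * M * (S * M) * (S * M)) * (M⁻¹ * S⁻¹ * M⁻¹) := by group
    rw [this, h4, hMi, hSi]
    have h6 : E * (M * S * M) = M * S * M * E := by
      rw [← mul_assoc, ← mul_assoc, ← hME, mul_assoc M E, ← hSE, ← mul_assoc, mul_assoc (M * S) E,
        ← hME, ← mul_assoc]
    exact h6
  have h6 : S * (M * S * M) = M * S * E := by
    have : S * (M * S * M) = (S * M * (S * M) * (S * M)) * (M⁻¹ * S⁻¹) := by group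
    rw [this, h4, hMi, hSi, ← mul_assoc, ← hME, mul_assoc M E, ← hSE, ← mul_assoc]
  rcases hw with h | h | h | h | h | h
  · refine ⟨S, by simp, ?_⟩
    rcases hq with hq | hq
    · left; rw [hq, h, mul_one]
    · right; rw [hq, h, one_mul]
  · refine ⟨1, by simp, ?_⟩
    rcases hq with hq | hq
    · left; rw [hq, h]; exact hS
    · right; rw [hq, h, ← mul_assoc, hS]
  · refine ⟨S * M, by simp, ?_⟩
    rcases hq with hq | hq
    · left; rw [hq, h]
    · right; rw [hq, h, mul_assoc]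
  · refine ⟨M, by simp, ?_⟩
    rcases hq with hq | hq
    · left; rw [hq, h, ← mul_assoc, hS, one_mul]
    · right; rw [hq, h, ← mul_assoc, ← mul_assoc, hS, one_mul]
  · refine ⟨M * S * M, by simp, ?_⟩
    rcases hq with hq | hq
    · right; rw [hq, h]; exact h5
    · left; rw [hq, h, ← mul_assoc, h5, mul_assoc, hE, mul_one]
  · refine ⟨M * S, by simp, ?_⟩
    rcases hq with hq | hq
    · right; rw [hq, h]; exact h6
    · left; rw [hq, h, ← mul_assoc, h6, mul_assoc, hE, mul_one]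

end

theorem qS : πQ σA * πQ σA = 1 := by rw [← map_mul, σσ, map_one]
theorem qE : πQ εA * πQ εA = 1 := by rw [← map_mul, εε, map_one]
theorem qM : πQ μA * πQ μA = 1 := by
  rw [← map_mul]
  apply πQ_one
  have : μA * μA = tA⁻¹ := eq_inv_of_mul_eq_one_left μμt
  rw [this]
  exact inv_mem t_N1
theorem qSE : πQ σA * πQ εA = πQ εA * πQ σA := by
  have h := congrArg πQ σε
  rw [map_mul, map_mul, map_mul, πQ_one b_N1, mul_one] at h
  nth_rewrite 2 [← h]
  rw [mul_assoc, qS, mul_one]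
theorem qME : πQ μA * πQ εA = πQ εA * πQ μA := by
  have h := congrArg πQ με
  rw [map_mul, map_mul, map_mul, map_mul, πQ_one (conj_N1 _), πQ_one (inv_mem t_N1), one_mul,
    one_mul, map_inv] at h
  exact mul_inv_eq_iff_eq_mul.1 h
theorem q3 : πQ σA * πQ μA * (πQ σA * πQ μA) * (πQ σA * πQ μA) * πQ εA = 1 := by
  have h := congrArg πQ σμ3
  rw [πQ_one (mul_mem (conj_N1 _) (mul_mem s_N1 t_N1))] at h
  simpa only [map_mul] using h

/-- the stabilizer of the twelve elements -/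
def ST : Subgroup (MulAut FF) where
  carrier := {g | ∀ q, πQ g * q ∈ T12 ↔ q ∈ T12}
  one_mem' := fun n => by simp
  mul_mem' := by
    intro a b ha hb n
    rw [map_mul, mul_assoc, ha, hb]
  inv_mem' := by
    intro a ha n
    rw [← ha, map_inv, mul_inv_cancel_left]

theorem ST_of {g : MulAut FF} (h2 : πQ g * πQ g = 1) (h : ∀ q ∈ T12, πQ g * q ∈ T12) : g ∈ ST := by
  intro q
  refine ⟨fun h1 => ?_, h q⟩
  have := h _ h1
  rwa [← mul_assoc, h2, one_mul] at this

theorem ST_top : ST = ⊤ := by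
  apply Pool.Agent.H528.Nielsen.nielsen ST (σ := σA) (ε := εA) (μ := μA)
  · apply ST_of qS
    rintro q ⟨w, hw, hq⟩
    exact stepS qS qM qE qSE qME q3 q w hw hq
  · apply ST_of qE
    rintro q ⟨w, hw, hq⟩
    exact stepE qE qSE qME q w hw hq
  · apply ST_of qM
    rintro q ⟨w, hw, hq⟩
    exact stepM qM q w hw hq
  · intro g q
    rw [πQ_one (conj_N1 g), one_mul]
  · simp
  · simp
  · simp
  · simp
  · simp
  · simp

theorem mem_T12 (α : MulAut FF) : πQ α ∈ T12 := by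
  have : α ∈ ST := by rw [ST_top]; trivial
  have h1 := (this 1).2 ⟨1, by simp, by simp⟩
  rwa [mul_one] at h1

/-- Twelve cosets. -/
theorem cosets (α : MulAut FF) : ∃ w e n, (w = 1 ∨ w = σA ∨ w = μA ∨ w = σA * μA ∨ w = μA * σA ∨
    w = μA * σA * μA) ∧ (e = 1 ∨ e = εA) ∧ n ∈ N1 ∧ α = w * e * n := by
  obtain ⟨w, hw, hq⟩ := mem_T12 α
  have h1 : ∃ w', (w' = 1 ∨ w' = σA ∨ w' = μA ∨ w' = σA * μA ∨ w' = μA * σA ∨
    w' = μA * σA * μA) ∧ πQ w' = w := by
    rcases hw with rfl | rfl | rfl | rfl | rfl | rfl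
    · exact ⟨1, by simp, by simp⟩
    · exact ⟨σA, by simp, rfl⟩
    · exact ⟨μA, by simp, rfl⟩
    · exact ⟨σA * μA, by simp, by simp⟩
    · exact ⟨μA * σA, by simp, by simp⟩
    · exact ⟨μA * σA * μA, by simp, by simp⟩
  obtain ⟨w', hw', rfl⟩ := h1
  have h2 : ∃ e, (e = 1 ∨ e = εA) ∧ πQ α = πQ (w' * e) := by
    rcases hq with h | h
    · exact ⟨1, by simp, by simp [h]⟩
    · exact ⟨εA, by simp, by simp [h]⟩
  obtain ⟨e, he, h3⟩ := h2
  refine ⟨w', e, (w' * e)⁻¹ * α, hw', he, ?_, by group⟩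
  rw [← QuotientGroup.eq]
  exact h3.symm

end Pool.Agent.Q171.AS
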