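import Pool.Agent.H4.L.R_pool_sql_team_seeded_3997aac3.Q171.AS.Gen2

/-!
Automorphisms acting trivially on the abelianization modulo four are products of an inner automorphism
and an element of the group generated by `s` and `t`.
-/

namespace Pool.Agent.Q171.AS

open FreeGroup (of lift)

/-- the group of words in `s` and `t` -/
abbrev LL : Type := FreeGroup (Fin 2)

/-- substitution of `s`, `t` -/
def Φ : LL →* MulAut FF := lift ![sA, tA]

@[simp] theorem Φ_0 : Φ (of 0) = sA := by simp [Φ]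
@[simp] theorem Φ_1 : Φ (of 1) = tA := by simp [Φ]

theorem closure_LL : Subgroup.closure {x : LL | x = of 0 ∨ x = of 1} = ⊤ := by
  rw [← FreeGroup.closure_range_of]
  congr 1
  ext x
  constructor
  · rintro (rfl | rfl)
    · exact ⟨0, rfl⟩
    · exact ⟨1, rfl⟩
  · rintro ⟨i, rfl⟩
    fin_cases i
    · exact Or.inl rfl
    · exact Or.inr rfl

theorem ind {P : Subgroup LL} (h0 : of 0 ∈ P) (h1 : of 1 ∈ P) (x : LL) : x ∈ P := by
  have : (⊤ : Subgroup LL) ≤ P := by
    rw [← closure_LL, Subgroup.closure_le]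
    rintro _ (rfl | rfl)
    · exact h0
    · exact h1
  exact this (Subgroup.mem_top x)

theorem bΦ (l : LL) : ∃ r, bA * Φ l * bA = MulAut.conj r * Φ l := by
  let P : Subgroup LL :=
    { carrier := {l | ∃ r, bA * Φ l * bA = MulAut.conj r * Φ l}
      one_mem' := ⟨1, by simp [bb]⟩
      mul_mem' := by
        rintro l m ⟨r, hr⟩ ⟨r', hr'⟩
        refine ⟨r * Φ l r', ?_⟩
        have : bA * Φ (l * m) * bA = (bA * Φ l * bA) * (bA * Φ m * bA) := by
          have : (bA * Φ l * bA) * (bA * Φ m * bA) = bA * Φ l * (bA * bA) * Φ m * bA := by group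
          rw [this, bb, map_mul]
          group
        rw [this, hr, hr', map_mul, map_mul, ← conj_conj]
        group
      inv_mem' := by
        rintro l ⟨r, hr⟩
        refine ⟨Φ l⁻¹ r⁻¹, ?_⟩
        have : bA * Φ l⁻¹ * bA = (bA * Φ l * bA)⁻¹ := by
          rw [mul_inv_rev, mul_inv_rev, binv, map_inv, mul_assoc]
        rw [this, hr, ← conj_conj]
        simp only [map_inv]
        group }
  have h0 : (of 0 : LL) ∈ P := ⟨X⁻¹ * X⁻¹, by rw [Φ_0]; exact bs⟩
  have h1 : (of 1 : LL) ∈ P := ⟨Y⁻¹ * Y⁻¹, by rw [Φ_1]; exact bt⟩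
  exact ind h0 h1 l

/-- The form of the elements of `N1`. -/
theorem N1_form {α : MulAut FF} (h : α ∈ N1) : ∃ r l e, (e = 1 ∨ e = bA) ∧
    α = MulAut.conj r * Φ l * e := by
  let P : Subgroup (MulAut FF) :=
    { carrier := {α | ∃ r l e, (e = 1 ∨ e = bA) ∧ α = MulAut.conj r * Φ l * e}
      one_mem' := ⟨1, 1, 1, Or.inl rfl, by simp⟩
      mul_mem' := by
        rintro _ _ ⟨r, l, e, he, rfl⟩ ⟨r', l', e', he', rfl⟩
        have h1 : ∃ r'', e * Φ l' * e = MulAut.conj r'' * Φ l' := by
          rcases he with rfl | rfl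
          · exact ⟨1, by simp⟩
          · exact bΦ l'
        obtain ⟨r'', h1⟩ := h1
        have h2 : e * e = 1 := by
          rcases he with rfl | rfl
          · simp
          · exact bb
        have hei : e⁻¹ = e := inv_eq_of_mul_eq_one_left h2
        refine ⟨r * Φ l (e r' * r''), l * l', e * e', ?_, ?_⟩
        · rcases he with rfl | rfl
          · simpa using he'
          · rcases he' with rfl | rfl
            · right; simp
            · left; exact bb
        · have h3 : MulAut.conj r * Φ l * e * (MulAut.conj r' * Φ l' * e') =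
              MulAut.conj r * (Φ l * ((e * MulAut.conj r' * e⁻¹) * (e * Φ l' * e)) * (Φ l)⁻¹) *
                Φ l * (e⁻¹ * e') := by group
          rw [h3, h1, conj_conj, hei]
          have h4 : Φ l * (MulAut.conj (e r') * (MulAut.conj r'' * Φ l')) * (Φ l)⁻¹ * Φ l =
              (Φ l * MulAut.conj (e r' * r'') * (Φ l)⁻¹) * Φ l * Φ l' := by
            rw [map_mul]; group
          rw [mul_assoc (MulAut.conj r), h4, conj_conj]
          simp only [map_mul]
          group
      inv_mem' := by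
        rintro _ ⟨r, l, e, he, rfl⟩
        have h1 : ∃ r'', e * Φ l⁻¹ * e = MulAut.conj r'' * Φ l⁻¹ := by
          rcases he with rfl | rfl
          · exact ⟨1, by simp⟩
          · exact bΦ _
        obtain ⟨r'', h1⟩ := h1
        have h2 : e * e = 1 := by
          rcases he with rfl | rfl
          · simp
          · exact bb
        have hei : e⁻¹ = e := inv_eq_of_mul_eq_one_left h2
        refine ⟨r'' * Φ l⁻¹ (e r⁻¹), l⁻¹, e, he, ?_⟩
        have h3 : (MulAut.conj r * Φ l * e)⁻¹ = (e * Φ l⁻¹ * e) * (e * MulAut.conj r⁻¹ * e⁻¹) * e := by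
          rw [hei]
          have : (e * Φ l⁻¹ * e) * (e * MulAut.conj r⁻¹ * e) * e =
            e * Φ l⁻¹ * (e * e) * MulAut.conj r⁻¹ * (e * e) := by group
          rw [this, h2, mul_inv_rev, mul_inv_rev, hei, map_inv, map_inv]
          group
        rw [h3, h1, conj_conj, mul_assoc (MulAut.conj r'') (Φ l⁻¹), mul_conj]
        simp only [map_mul, mul_assoc] }
  have : N1 ≤ P := by
    apply N1_le
    · intro g
      exact ⟨g, 1, 1, Or.inl rfl, by simp⟩
    · exact ⟨1, of 0, 1, Or.inl rfl, by simp⟩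
    · exact ⟨1, of 1, 1, Or.inl rfl, by simp⟩
    · exact ⟨1, 1, bA, Or.inr rfl, by simp⟩
  exact this h

/-- exponent of the generator `i` modulo four -/
def ex4 (i : Fin 2) : FF →* Multiplicative (ZMod 4) :=
  lift ![if i = 0 then Multiplicative.ofAdd 1 else 1, if i = 1 then Multiplicative.ofAdd 1 else 1]

/-- the exponents modulo four -/
def e4 (i : Fin 2) (w : FF) : ZMod 4 := (ex4 i w).toAdd

theorem e4_mul (i : Fin 2) (v w : FF) : e4 i (v * w) = e4 i v + e4 i w := by
  simp [e4]
theorem e4_inv (i : Fin 2) (v : FF) : e4 i v⁻¹ = - e4 i v := by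
  simp [e4]
theorem e4_00 : e4 0 X = 1 := by simp [e4, ex4]
theorem e4_01 : e4 0 Y = 0 := by simp [e4, ex4]
theorem e4_10 : e4 1 X = 0 := by simp [e4, ex4]
theorem e4_11 : e4 1 Y = 1 := by simp [e4, ex4]

theorem e4_app (α : MulAut FF) (i : Fin 2) (w : FF) :
    e4 i (α w) = e4 i (α X) * e4 0 w + e4 i (α Y) * e4 1 w := by
  induction w using FreeGroup.induction_on with
  | C1 => simp [e4]
  | of j =>
    fin_cases j
    · change e4 i (α X) = e4 i (α X) * e4 0 X + e4 i (α Y) * e4 1 X
      rw [e4_00, e4_10]; ring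
    · change e4 i (α Y) = e4 i (α X) * e4 0 Y + e4 i (α Y) * e4 1 Y
      rw [e4_01, e4_11]; ring
  | inv_of j h =>
    rw [map_inv, e4_inv, e4_inv, e4_inv]
    have h' : e4 i (α (of j)) = e4 i (α X) * e4 0 (of j) + e4 i (α Y) * e4 1 (of j) := h
    rw [h']; ring
  | mul v w h1 h2 =>
    rw [map_mul, e4_mul, e4_mul, e4_mul, h1, h2]; ring

/-- Sanov matrices up to sign, and entries -/
def Good (a b c d : ZMod 4) : Prop := a = d ∧ a * a = 1 ∧ 2 * b = 0 ∧ 2 * c = 0

instance (a b c d : ZMod 4) : Decidable (Good a b c d) := by unfold Good; infer_instance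

/-- the matrix of an automorphism is a Sanov matrix up to sign -/
def GoodA (α : MulAut FF) : Prop := Good (e4 0 (α X)) (e4 0 (α Y)) (e4 1 (α X)) (e4 1 (α Y))

theorem good_mul : ∀ a b c d a' b' c' d' : ZMod 4, Good a b c d → Good a' b' c' d' →
    Good (a * a' + b * c') (a * b' + b * d') (c * a' + d * c') (c * b' + d * d') := by
  rintro a b c d a' b' c' d' ⟨rfl, h1, h2, h3⟩ ⟨rfl, h4, h5, h6⟩
  revert a b c a' b' c'
  decide

theorem GoodA.mul {α β : MulAut FF} (hα : GoodA α) (hβ : GoodA β) : GoodA (α * β) := by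
  unfold GoodA at hα hβ ⊢
  rw [MulAut.mul_apply, MulAut.mul_apply, e4_app α 0, e4_app α 1, e4_app α 0 (β Y),
    e4_app α 1 (β Y)]
  exact good_mul _ _ _ _ _ _ _ _ hα hβ

theorem good_inv : ∀ a b c d a' b' c' d' : ZMod 4, Good a b c d →
    a' * a + b' * c = 1 → a' * b + b' * d = 0 → c' * a + d' * c = 0 → c' * b + d' * d = 1 →
    Good a' b' c' d' := by
  rintro a b c d a' b' c' d' ⟨rfl, h1, h2, h3⟩ h4 h5 h6 h7
  have h8 : a' = a ∧ b' = b := by
    clear h6 h7
    revert a b c a' b'
    decide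
  have h9 : c' = c ∧ d' = a := by
    clear h4 h5 h8
    revert a b c c' d'
    decide
  obtain ⟨rfl, rfl⟩ := h8
  obtain ⟨rfl, rfl⟩ := h9
  exact ⟨rfl, h1, h2, h3⟩

theorem GoodA.inv {α : MulAut FF} (hα : GoodA α) : GoodA α⁻¹ := by
  have h1 := e4_app α⁻¹ 0 (α X)
  have h2 := e4_app α⁻¹ 0 (α Y)
  have h3 := e4_app α⁻¹ 1 (α X)
  have h4 := e4_app α⁻¹ 1 (α Y)
  rw [MulAut.inv_apply_self] at h1 h2 h3 h4
  rw [e4_00] at h1
  rw [e4_01] at h2
  rw [e4_10] at h3
  rw [e4_11] at h4
  exact good_inv _ _ _ _ _ _ _ _ hα h1.symm h2.symm h3.symm h4.symm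

theorem e4_conj (i : Fin 2) (g w : FF) : e4 i (MulAut.conj g w) = e4 i w := by
  rw [MulAut.conj_apply, e4_mul, e4_mul, e4_inv]; ring

theorem GoodA.N1 {α : MulAut FF} (h : α ∈ N1) : GoodA α := by
  let P : Subgroup (MulAut FF) :=
    { carrier := {α | GoodA α}
      one_mem' := by
        change GoodA 1
        unfold GoodA
        simp only [MulAut.one_apply, e4_00, e4_01, e4_10, e4_11]
        decide
      mul_mem' := fun h1 h2 => GoodA.mul h1 h2
      inv_mem' := fun h1 => GoodA.inv h1 }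
  have : AS.N1 ≤ P := by
    apply N1_le
    · intro g
      change GoodA _
      unfold GoodA
      simp only [e4_conj, e4_00, e4_01, e4_10, e4_11]
      decide
    · change GoodA _
      unfold GoodA
      simp only [sA_X, sA_Y, e4_mul, e4_00, e4_01, e4_10, e4_11]
      decide
    · change GoodA _
      unfold GoodA
      simp only [tA_X, tA_Y, e4_mul, e4_inv, e4_00, e4_01, e4_10, e4_11]
      decide
    · change GoodA _
      unfold GoodA
      simp only [bA_X, bA_Y, e4_inv, e4_00, e4_01, e4_10, e4_11]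
      decide
  exact this h

/-- diagonal one modulo four -/
theorem diag_Φ (l : LL) : e4 0 (Φ l X) = 1 := by
  let P : Subgroup LL :=
    { carrier := {l | GoodA (Φ l) ∧ e4 0 (Φ l X) = 1}
      one_mem' := by
        refine ⟨?_, ?_⟩
        · rw [map_one]; exact GoodA.N1 (one_mem _)
        · rw [map_one, MulAut.one_apply, e4_00]
      mul_mem' := by
        rintro l m ⟨h1, h2⟩ ⟨h3, h4⟩
        refine ⟨?_, ?_⟩
        · rw [map_mul]; exact h1.mul h3
        · rw [map_mul, MulAut.mul_apply, e4_app, h2, h4]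
          have h5 : 2 * e4 0 (Φ l Y) = 0 := h1.2.2.1
          have h6 : 2 * e4 1 (Φ m X) = 0 := h3.2.2.2
          generalize e4 0 (Φ l Y) = b at h5 ⊢
          generalize e4 1 (Φ m X) = c at h6 ⊢
          revert b c
          decide
      inv_mem' := by
        rintro l ⟨h1, h2⟩
        have h3 : GoodA (Φ l⁻¹) := by rw [map_inv]; exact h1.inv
        refine ⟨h3, ?_⟩
        have h4 := e4_app (Φ l⁻¹) 0 (Φ l X)
        rw [map_inv, MulAut.inv_apply_self, e4_00, h2, mul_one, ← map_inv] at h4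
        have h5 : 2 * e4 0 (Φ l⁻¹ Y) = 0 := h3.2.2.1
        have h6 : 2 * e4 1 (Φ l X) = 0 := h1.2.2.2
        generalize e4 0 (Φ l⁻¹ Y) = b at h4 h5 ⊢
        generalize e4 1 (Φ l X) = c at h4 h6 ⊢
        generalize e4 0 (Φ l⁻¹ X) = a at h4 ⊢
        revert a b c
        decide }
  have h0 : (of 0 : LL) ∈ P := by
    refine ⟨?_, ?_⟩
    · rw [Φ_0]; exact GoodA.N1 s_N1
    · rw [Φ_0, sA_X, e4_00]
  have h1 : (of 1 : LL) ∈ P := by
    refine ⟨?_, ?_⟩
    · rw [Φ_1]; exact GoodA.N1 t_N1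
    · rw [Φ_1, tA_X, e4_mul, e4_mul, e4_inv, e4_00, e4_01]; simp
  exact (ind h0 h1 l).2

/-- Automorphisms trivial modulo four. -/
theorem gen (α : MulAut FF) (h00 : e4 0 (α X) = 1) (h01 : e4 0 (α Y) = 0) (h10 : e4 1 (α X) = 0)
    (h11 : e4 1 (α Y) = 1) : ∃ r l, α = MulAut.conj r * Φ l := by
  obtain ⟨w, e, n, hw, he, hn, rfl⟩ := cosets α
  have hG := (GoodA.N1 hn)
  unfold GoodA at hG
  rw [MulAut.mul_apply, e4_app (w * e)] at h00 h01 h10 h11
  have hwe : w * e = 1 := by
    generalize e4 0 (n X) = a at hG h00 h01 h10 h11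
    generalize e4 0 (n Y) = b at hG h00 h01 h10 h11
    generalize e4 1 (n X) = c at hG h00 h01 h10 h11
    generalize e4 1 (n Y) = d at hG h00 h01 h10 h11
    rcases hw with rfl | rfl | rfl | rfl | rfl | rfl <;> rcases he with rfl | rfl
    · simp
    all_goals
      exfalso
      simp only [MulAut.mul_apply, MulAut.one_apply, σA_X, σA_Y, μA_X, μA_Y, εA_X, εA_Y, map_mul,
        map_inv, e4_mul, e4_inv, e4_00, e4_01, e4_10, e4_11] at h00 h01 h10 h11
      revert a b c d
      decide
  rw [hwe] at h00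
  rw [MulAut.one_apply, MulAut.one_apply, e4_00, e4_01, one_mul, zero_mul, add_zero] at h00
  rw [hwe, one_mul]
  obtain ⟨r, l, e', he', rfl⟩ := N1_form hn
  rcases he' with rfl | rfl
  · exact ⟨r, l, by rw [mul_one]⟩
  · exfalso
    rw [MulAut.mul_apply, MulAut.mul_apply, e4_conj, bA_X, map_inv, e4_inv, diag_Φ] at h00
    exact absurd h00 (by decide)

end Pool.Agent.Q171.AS
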